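import Pool.Agent.J6H21.CG.Maker2

/-!
# The sequence game on `Q^3_n`: Maker can guarantee the height exactly for `n ≤ 6`

`Q^3_n` is the poset of the `x ∈ ℕ^3` with `x_1 + x_2 + x_3 ≤ n`; its longest chains have `h = n + 1` elements. It was suggested
that Maker can guarantee the score `h` in the sequence game on `Q^d_n` for `3 ≤ d ≤ 13`, as for `d ≥ 14`. For `d = 3` this is
true exactly for `n ≤ 6`: Breaker has a strategy which keeps the score of Maker at most `h - ⌊h / 8⌋`. So
`(3 / 4) h ≤ g_seq(Q^3_n) ≤ h - ⌊h / 8⌋`, and `g_seq(Q^3_n) < h` for all `n ≥ 7`; and for `n ≤ 6` Maker can guarantee `h`.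

Proof. Consider first the local game: Maker walks upwards, one level at a time, through unclaimed elements, and Breaker claims
an element after every step. A computer search found a strategy (`Pool.Agent.J6H21.CG.tree`, checked by the kernel in
`check_tree`) for Breaker, beginning with `v + (2, 2, 2)` when Maker starts in `v`, such that Maker makes at most `6` steps.
Claimed elements never help Maker, so Breaker can play all local games at the same time (`Pool.Agent.J6H21.CG.reply`): to a move
`u` of Maker, which may continue several of his chains, she replies in the local game of an element below `u` with the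
smallest number of remaining steps. So among eight consecutive levels every chain which Maker claims in its temporal order skips
at least one. For `n ≤ 6` a strategy of Maker for `6` steps from the least element (`Pool.Agent.J6H21.CG.mtree`) is checked by
the kernel.
-/

set_option autoImplicit false

namespace Pool.Agent.Results.MP_ee952b_co.DimensionThree

open Pool.Agent.J6H21.CG

/-- **The sequence game on `Q^3_n`.** (1) Breaker has a strategy which keeps the score of Maker at most
`(n + 1) - ⌊(n + 1) / 8⌋`. (2) So the value of the sequence game is at most this number. (3) The height of `Q^3_n` is `n + 1`,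
and the value is equal to the height if and only if `n ≤ 6`. -/
theorem result (n : ℕ) :
    (∃ s : List (Q 3 n) → Q 3 n, Legal s ∧ ∀ p : ℕ → Q 3 n, IsPlay p → Follows 1 s p →
      ∀ k, SeqScore p k → k ≤ n + 1 - (n + 1) / 8) ∧
    gseq (Q 3 n) ≤ n + 1 - (n + 1) / 8 ∧
    height (Q 3 n) = n + 1 ∧ (gseq (Q 3 n) = height (Q 3 n) ↔ n ≤ 6) := by
  have h1 := breaker_three n
  have h2 := gseq_le_of_breaker h1
  have h3 := height_three 3 n (by norm_num)
  refine ⟨h1, h2, h3, fun h => ?_, fun hn => ?_⟩
  · rw [h3] at h
    omega
  · rw [h3]
    exact gseq_eq hn

end Pool.Agent.Results.MP_ee952b_co.DimensionThree
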