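import Pool.Agent.J6H80.SG.Num

/-!
# Long chains for Maker in the games on the simplex posets `Q^d_n`, `4 ≤ d ≤ 13`

Two players claim the elements of `Q^d_n` (the `x ∈ ℕ^d` with coordinate sum at most `n`, ordered
componentwise) in turn, Maker first, until all are claimed. `gSet` and `gSeq` are the largest scores
that Maker can guarantee in the set game and in the sequence game.

* Both values are equal to `h = n + 1`, the length of the longest chains, for `4 ≤ d ≤ 13` and
  `n ≤ N_d`, with `N_d = 7, 19, 37, 60, 90, 269, 1148, 5207, 25905, 133867`.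
* For `6 ≤ d ≤ 13` and all `n` both values are at least `h / (1 + κ_d)`, with
  `κ_d = 0.1426, 0.0487, 0.01413, 0.0037, 0.00087, 0.000192, 0.0000386, 0.00000747` (the known
  bound is `h / (1 + 1 / d)`).

Proof: a point `v > x` claimed by Breaker has the potential `mf (v - x) / γ ^ |v - x|`, where `mf` is
the multinomial coefficient, if `|v - x| ≤ K`. As long as the total potential is less than `d / γ`,
Maker has an unclaimed cover of `x` which lowers it by the factor `γ / d`; the next point of Breaker
adds at most `1 / γ`. So it stays below the fixed point `fx d γ < d / γ`, except for the points that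
enter the horizon `K`, each of which adds at most `ε`. They pay for the levels that Maker skips when
the potential is at least `d / γ`: a skipped level lowers it by at least `gn d γ`
(`Pool.Agent.J6H80.SG.Walk`). For `n ≤ K` no points enter.

Positions are lists of the elements claimed so far, the latest first (`Pool.Agent.J6H80.SG.Defs`).
-/

set_option autoImplicit false

namespace Pool.Agent.Results.MP_ee952b_co.LongChains

open Pool.Agent.J6H80.SG

theorem bound6 (n : ℕ) : (n : ℝ) + 1 ≤ (1 + 0.1426) * gSeq (Q 6 n) :=
  bound_of_par (par_of_chk (K := 9) (a := 946) (b := 200) (nn := 38275668032) (dd := 1000000000000)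
    (by norm_num) (by norm_num) (by norm_num) (by norm_num) (by norm_num) (by norm_num)
    (by decide +kernel)) (by norm_num) (by norm_num) (by norm_num) n

theorem bound7 (n : ℕ) : (n : ℝ) + 1 ≤ (1 + 0.0487) * gSeq (Q 7 n) :=
  bound_of_par (par_of_chk (K := 11) (a := 1158) (b := 200) (nn := 10175869632) (dd := 1000000000000)
    (by norm_num) (by norm_num) (by norm_num) (by norm_num) (by norm_num) (by norm_num)
    (by decide +kernel)) (by norm_num) (by norm_num) (by norm_num) n

theorem bound8 (n : ℕ) : (n : ℝ) + 1 ≤ (1 + 0.01413) * gSeq (Q 8 n) :=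
  bound_of_par (par_of_chk (K := 20) (a := 1366) (b := 200) (nn := 2404282853) (dd := 1000000000000)
    (by norm_num) (by norm_num) (by norm_num) (by norm_num) (by norm_num) (by norm_num)
    (by decide +kernel)) (by norm_num) (by norm_num) (by norm_num) n

theorem bound9 (n : ℕ) : (n : ℝ) + 1 ≤ (1 + 0.0037) * gSeq (Q 9 n) :=
  bound_of_par (par_of_chk (K := 23) (a := 1571) (b := 200) (nn := 536112383) (dd := 1000000000000)
    (by norm_num) (by norm_num) (by norm_num) (by norm_num) (by norm_num) (by norm_num)
    (by decide +kernel)) (by norm_num) (by norm_num) (by norm_num) n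

theorem bound10 (n : ℕ) : (n : ℝ) + 1 ≤ (1 + 0.00087) * gSeq (Q 10 n) :=
  bound_of_par (par_of_chk (K := 35) (a := 1775) (b := 200) (nn := 108774609) (dd := 1000000000000)
    (by norm_num) (by norm_num) (by norm_num) (by norm_num) (by norm_num) (by norm_num)
    (by decide +kernel)) (by norm_num) (by norm_num) (by norm_num) n

theorem bound11 (n : ℕ) : (n : ℝ) + 1 ≤ (1 + 0.000192) * gSeq (Q 11 n) :=
  bound_of_par (par_of_chk (K := 39) (a := 1977) (b := 200) (nn := 21551183) (dd := 1000000000000)
    (by norm_num) (by norm_num) (by norm_num) (by norm_num) (by norm_num) (by norm_num)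
    (by decide +kernel)) (by norm_num) (by norm_num) (by norm_num) n

theorem bound12 (n : ℕ) : (n : ℝ) + 1 ≤ (1 + 0.0000386) * gSeq (Q 12 n) :=
  bound_of_par (par_of_chk (K := 54) (a := 2180) (b := 200) (nn := 3854182) (dd := 1000000000000)
    (by norm_num) (by norm_num) (by norm_num) (by norm_num) (by norm_num) (by norm_num)
    (by decide +kernel)) (by norm_num) (by norm_num) (by norm_num) n

theorem bound13 (n : ℕ) : (n : ℝ) + 1 ≤ (1 + 0.00000747) * gSeq (Q 13 n) :=
  bound_of_par (par_of_chk (K := 59) (a := 2382) (b := 200) (nn := 672502) (dd := 1000000000000)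
    (by norm_num) (by norm_num) (by norm_num) (by norm_num) (by norm_num) (by norm_num)
    (by decide +kernel)) (by norm_num) (by norm_num) (by norm_num) n

/-- **Long chains for Maker.** -/
theorem result :
    (∀ d n : ℕ, gSeq (Q d n) ≤ gSet (Q d n) ∧ gSet (Q d n) ≤ n + 1) ∧
    (∀ p ∈ ([(4, 7), (5, 19), (6, 37), (7, 60), (8, 90), (9, 269), (10, 1148), (11, 5207),
        (12, 25905), (13, 133867)] : List (ℕ × ℕ)),
      ∀ n ≤ p.2, gSeq (Q p.1 n) = n + 1 ∧ gSet (Q p.1 n) = n + 1) ∧
    (∀ p ∈ ([(6, 0.1426), (7, 0.0487), (8, 0.01413), (9, 0.0037), (10, 0.00087), (11, 0.000192),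
        (12, 0.0000386), (13, 0.00000747)] : List (ℕ × ℝ)),
      ∀ n : ℕ, (n : ℝ) + 1 ≤ (1 + p.2) * gSeq (Q p.1 n)) := by
  refine ⟨fun d n => ⟨gSeq_le_gSet, gSet_le⟩, ?_, ?_⟩
  · intro p hp n hn
    simp only [List.mem_cons, List.not_mem_nil, or_false] at hp
    rcases hp with rfl | rfl | rfl | rfl | rfl | rfl | rfl | rfl | rfl | rfl
    · exact exact_of_par (par_of_chk (a := 59) (b := 20) (nn := 20) (dd := 59) (by norm_num)
        (by norm_num) (by norm_num) (by norm_num) (by norm_num) (by norm_num) (by decide +kernel))
        n hn
    · exact exact_of_par (par_of_chk (a := 199) (b := 50) (nn := 50) (dd := 199) (by norm_num)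
        (by norm_num) (by norm_num) (by norm_num) (by norm_num) (by norm_num) (by decide +kernel))
        n hn
    · exact exact_of_par (par_of_chk (a := 2499) (b := 500) (nn := 500) (dd := 2499) (by norm_num)
        (by norm_num) (by norm_num) (by norm_num) (by norm_num) (by norm_num) (by decide +kernel))
        n hn
    · exact exact_of_par (par_of_chk (a := 599) (b := 100) (nn := 100) (dd := 599) (by norm_num)
        (by norm_num) (by norm_num) (by norm_num) (by norm_num) (by norm_num) (by decide +kernel))
        n hn
    · exact exact_of_par (par_of_chk (a := 6999) (b := 1000) (nn := 1000) (dd := 6999)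
        (by norm_num) (by norm_num) (by norm_num) (by norm_num) (by norm_num) (by norm_num)
        (by decide +kernel)) n hn
    · exact exact_of_bound (by norm_num) bound9 n 269 hn (by norm_num)
    · exact exact_of_bound (by norm_num) bound10 n 1148 hn (by norm_num)
    · exact exact_of_bound (by norm_num) bound11 n 5207 hn (by norm_num)
    · exact exact_of_bound (by norm_num) bound12 n 25905 hn (by norm_num)
    · exact exact_of_bound (by norm_num) bound13 n 133867 hn (by norm_num)
  · intro p hp n
    simp only [List.mem_cons, List.not_mem_nil, or_false] at hp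
    rcases hp with rfl | rfl | rfl | rfl | rfl | rfl | rfl | rfl
    · exact bound6 n
    · exact bound7 n
    · exact bound8 n
    · exact bound9 n
    · exact bound10 n
    · exact bound11 n
    · exact bound12 n
    · exact bound13 n

end Pool.Agent.Results.MP_ee952b_co.LongChains
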